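import Mathlib

/-!
# Heisenberg orbits over finite abelian groups
-/

set_option autoImplicit false

namespace Pool.Agent.N392.Ab

variable {A : Type*} [AddCommGroup A] [Fintype A]

/-- The time-frequency shift of `x : A → ℂ` by `v = (a, χ)`: the vector with entries
`χ(k) x(k - a)`. -/
noncomputable def shift (v : A × AddChar A ℂ) (x : EuclideanSpace ℂ A) : EuclideanSpace ℂ A :=
  WithLp.toLp 2 fun k => v.2 k * x (k - v.1)

/-- The `|A|²` time-frequency shifts of `x` (its orbit under the Heisenberg group of `A`, up to
phases) form a maximal equiangular tight frame in dimension `|A|`: they are unit vectors and any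
two of them have an inner product of modulus `1 / √(|A| + 1)`. -/
def IsFiducial (x : EuclideanSpace ℂ A) : Prop :=
  (∀ v : A × AddChar A ℂ, ‖shift v x‖ = 1) ∧
  ∀ v w : A × AddChar A ℂ, v ≠ w →
    ‖inner ℂ (shift v x) (shift w x)‖ = 1 / Real.sqrt ((Fintype.card A : ℝ) + 1)

end Pool.Agent.N392.Ab
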