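import Mathlib
import Pool.Agent.N392.Ab.Defs

/-!
# The quartic equations of a fiducial vector over a finite abelian group
-/

set_option autoImplicit false

open Finset ComplexConjugate

namespace Pool.Agent.N392.Ab

variable {A : Type*} [AddCommGroup A] [Fintype A]

/-- overlaps -/
noncomputable def ov (x : A → ℂ) (a : A) (χ : AddChar A ℂ) : ℂ :=
  ∑ k, conj (x k) * x (k + a) * χ k

/-- quartic sums -/
noncomputable def G (x : A → ℂ) (a m : A) : ℂ :=
  ∑ k, conj (x k) * x (k + a) * x (k + m) * conj (x (k + a + m))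

omit [Fintype A] in
theorem conj_char [Finite A] (χ : AddChar A ℂ) (b : A) : conj (χ b) = χ (-b) := by
  rw [AddChar.map_neg_eq_conj]

omit [Fintype A] in
theorem norm_char [Finite A] (χ : AddChar A ℂ) (b : A) : ‖χ b‖ = 1 :=
  AddChar.norm_apply _ _

theorem inner_shift (x : EuclideanSpace ℂ A) (q r : A × AddChar A ℂ) :
    inner ℂ (shift q x) (shift r x) =
      (r.2 - q.2) q.1 * ov x (q.1 - r.1) (r.2 - q.2) := by
  rw [PiLp.inner_apply]
  unfold ov
  rw [Finset.mul_sum]
  refine Fintype.sum_equiv (Equiv.subRight q.1) _ _ fun k => ?_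
  rw [Equiv.subRight_apply]
  unfold shift
  simp only [RCLike.inner_apply]
  rw [map_mul (starRingEnd ℂ), conj_char]
  have h1 : q.2 (-k) * r.2 k = (r.2 - q.2) q.1 * (r.2 - q.2) (k - q.1) := by
    rw [← AddChar.map_add_eq_mul, add_sub_cancel, AddChar.sub_apply]
    ring
  have h2 : k - q.1 + (q.1 - r.1) = k - r.1 := by abel
  rw [h2]
  linear_combination (x (k - r.1) * conj (x (k - q.1))) * h1

omit [Fintype A] in
theorem shift_zero (x : EuclideanSpace ℂ A) : shift 0 x = x := by
  unfold shift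
  ext k
  simp

theorem norm_shift (x : EuclideanSpace ℂ A) (q : A × AddChar A ℂ) :
    ‖shift q x‖ = ‖x‖ := by
  have h1 := inner_shift x q q
  have h2 := inner_shift x 0 0
  rw [shift_zero] at h2
  simp only [sub_self, AddChar.zero_apply, one_mul, Prod.snd_zero, Prod.fst_zero] at h1 h2
  rw [← h2, inner_self_eq_norm_sq_to_K, inner_self_eq_norm_sq_to_K] at h1
  have h4 : ‖shift q x‖ ^ 2 = ‖x‖ ^ 2 := by exact_mod_cast h1
  exact (pow_left_inj₀ (norm_nonneg _) (norm_nonneg _) two_ne_zero).1 h4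

theorem norm_sq_eq (x : EuclideanSpace ℂ A) :
    ((‖x‖ ^ 2 : ℝ) : ℂ) = ov x 0 0 := by
  have h := inner_shift x 0 0
  rw [shift_zero, inner_self_eq_norm_sq_to_K] at h
  simp only [sub_self, AddChar.zero_apply, one_mul, Prod.snd_zero, Prod.fst_zero] at h
  rw [← h]
  push_cast
  rfl

/-- the overlap form of the definition -/
theorem isFiducial_iff (x : EuclideanSpace ℂ A) :
    IsFiducial x ↔ ‖x‖ = 1 ∧ ∀ (a : A) (χ : AddChar A ℂ), (a ≠ 0 ∨ χ ≠ 0) →
      ‖ov x a χ‖ = 1 / Real.sqrt ((Fintype.card A : ℝ) + 1) := by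
  constructor
  · rintro ⟨h1, h2⟩
    refine ⟨by rw [← norm_shift x 0]; exact h1 0, fun a χ hab => ?_⟩
    have h3 := h2 (a, 0) (0, χ) (by
      intro h
      rw [Prod.mk.injEq] at h
      rcases hab with h4 | h4
      · exact h4 h.1
      · exact h4 h.2.symm)
    rw [inner_shift, norm_mul, norm_char, one_mul] at h3
    simpa using h3
  · rintro ⟨h1, h2⟩
    refine ⟨fun q => by rw [norm_shift]; exact h1, fun q r hqr => ?_⟩
    rw [inner_shift, norm_mul, norm_char, one_mul]
    apply h2
    by_contra h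
    push Not at h
    exact hqr (Prod.ext (sub_eq_zero.1 h.1) (sub_eq_zero.1 h.2).symm)

theorem ov_mul_conj (x : A → ℂ) (a : A) (χ : AddChar A ℂ) :
    ov x a χ * conj (ov x a χ) = ∑ m, G x a m * χ (-m) := by
  unfold ov G
  rw [map_sum, Finset.sum_mul_sum]
  have h1 : ∀ k : A, ∑ l, conj (x k) * x (k + a) * χ k *
      conj (conj (x l) * x (l + a) * χ l) =
      ∑ m, conj (x k) * x (k + a) * x (k + m) * conj (x (k + a + m)) * χ (-m) := by
    intro k
    refine Fintype.sum_equiv (Equiv.subRight k) _ _ fun l => ?_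
    rw [Equiv.subRight_apply]
    have e1 : k + (l - k) = l := by abel
    have e2 : k + a + (l - k) = l + a := by abel
    rw [e1, e2, map_mul (starRingEnd ℂ), map_mul (starRingEnd ℂ), Complex.conj_conj, conj_char]
    have h2 : χ k * χ (-l) = χ (-(l - k)) := by
      rw [← AddChar.map_add_eq_mul]
      congr 1
      abel
    rw [← h2]
    ring
  rw [Finset.sum_congr rfl fun k _ => h1 k, Finset.sum_comm]
  refine Finset.sum_congr rfl fun m _ => ?_
  rw [Finset.sum_mul]

theorem sum_ov (x : A → ℂ) (a m : A) :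
    ∑ χ : AddChar A ℂ, ov x a χ * conj (ov x a χ) * χ m = Fintype.card A * G x a m := by
  classical
  simp_rw [ov_mul_conj, Finset.sum_mul]
  rw [Finset.sum_comm]
  have h1 : ∀ m' : A, ∑ χ : AddChar A ℂ, G x a m' * χ (-m') * χ m =
      if m' = m then Fintype.card A * G x a m else 0 := by
    intro m'
    have h2 : ∀ χ : AddChar A ℂ, G x a m' * χ (-m') * χ m = G x a m' * χ (m - m') := by
      intro χ
      rw [mul_assoc, ← AddChar.map_add_eq_mul]
      congr 2
      abel
    simp_rw [h2]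
    rw [← Finset.mul_sum, AddChar.sum_apply_eq_ite]
    by_cases h3 : m' = m
    · rw [h3, sub_self, if_pos rfl, if_pos rfl, mul_comm]
    · rw [if_neg h3, if_neg (sub_ne_zero.2 (Ne.symm h3)), mul_zero]
  rw [Finset.sum_congr rfl fun m' _ => h1 m', Finset.sum_ite_eq', if_pos (Finset.mem_univ _)]

theorem card_ne : (Fintype.card A : ℂ) ≠ 0 := by exact_mod_cast Fintype.card_ne_zero

omit [AddCommGroup A] in
theorem card1_ne : (Fintype.card A : ℂ) + 1 ≠ 0 := by exact_mod_cast (Fintype.card A).succ_ne_zero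

theorem ov_sq_of {x : A → ℂ} {a : A} {χ : AddChar A ℂ}
    (h : ‖ov x a χ‖ = 1 / Real.sqrt ((Fintype.card A : ℝ) + 1)) :
    ov x a χ * conj (ov x a χ) = 1 / ((Fintype.card A : ℂ) + 1) := by
  rw [Complex.mul_conj, Complex.normSq_eq_norm_sq, h, div_pow, Real.sq_sqrt (by positivity)]
  push_cast
  ring

/-- the quartic equations -/
theorem IsFiducial.G_eq [DecidableEq A] {x : EuclideanSpace ℂ A} (h : IsFiducial x) (a m : A) :
    G x a m = ((if a = 0 then 1 else 0) + (if m = 0 then 1 else 0)) /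
      ((Fintype.card A : ℂ) + 1) := by
  classical
  rw [isFiducial_iff] at h
  obtain ⟨h1, h2⟩ := h
  have h3 := sum_ov x a m
  have hb : ∀ χ : AddChar A ℂ, ov x a χ * conj (ov x a χ) * χ m =
      1 / ((Fintype.card A : ℂ) + 1) * χ m +
      if χ = 0 then (if a = 0 then 1 - 1 / ((Fintype.card A : ℂ) + 1) else 0) else 0 := by
    intro χ
    by_cases hab : a ≠ 0 ∨ χ ≠ 0
    · rw [ov_sq_of (h2 a χ hab)]
      split_ifs with h4 h5
      · exfalso
        rcases hab with h6 | h6
        · exact h6 h5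
        · exact h6 h4
      · ring
      · ring
    · push Not at hab
      rw [if_pos hab.2, if_pos hab.1, hab.1, hab.2]
      have h4 : ov x 0 0 = 1 := by
        rw [← norm_sq_eq, h1]
        norm_num
      rw [h4, map_one, AddChar.zero_apply]
      ring
  rw [Finset.sum_congr rfl fun χ _ => hb χ, Finset.sum_add_distrib, ← Finset.mul_sum,
    AddChar.sum_apply_eq_ite, Finset.sum_ite_eq', if_pos (Finset.mem_univ _)] at h3
  have hp0 := card_ne (A := A)
  have hp1 := card1_ne (A := A)
  apply mul_left_cancel₀ hp0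
  rw [← h3]
  split_ifs <;> field_simp <;> ring

/-- converse -/
theorem isFiducial_of_G [DecidableEq A] {x : EuclideanSpace ℂ A} (hx : ‖x‖ = 1)
    (h : ∀ a m : A, G x a m =
      ((if a = 0 then 1 else 0) + (if m = 0 then 1 else 0)) / ((Fintype.card A : ℂ) + 1)) :
    IsFiducial x := by
  classical
  rw [isFiducial_iff]
  refine ⟨hx, fun a χ hab => ?_⟩
  have h1 := ov_mul_conj x a χ
  have h2 : ∀ m : A, G x a m * χ (-m) =
      (if a = 0 then 1 else 0) / ((Fintype.card A : ℂ) + 1) * χ (-m) +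
      if m = 0 then 1 / ((Fintype.card A : ℂ) + 1) else 0 := by
    intro m
    rw [h a m]
    by_cases hm : m = 0
    · rw [hm, neg_zero, AddChar.map_zero_eq_one, if_pos rfl, if_pos rfl]
      ring
    · rw [if_neg hm, if_neg hm]
      ring
  have h0 : ∑ m : A, χ (-m) = if χ = 0 then (Fintype.card A : ℂ) else 0 := by
    rw [← AddChar.sum_eq_ite]
    exact Fintype.sum_equiv (Equiv.neg A) _ _ fun m => by rw [Equiv.neg_apply]
  rw [Finset.sum_congr rfl fun m _ => h2 m, Finset.sum_add_distrib, ← Finset.mul_sum, h0,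
    Finset.sum_ite_eq', if_pos (Finset.mem_univ _)] at h1
  have h3 : (if a = 0 then 1 else 0) / ((Fintype.card A : ℂ) + 1) *
      (if χ = 0 then (Fintype.card A : ℂ) else 0) = 0 := by
    rcases hab with h4 | h4
    · rw [if_neg h4]; ring
    · rw [if_neg h4]; ring
  rw [h3, zero_add, Complex.mul_conj, Complex.normSq_eq_norm_sq] at h1
  have h4 : ‖ov x a χ‖ ^ 2 = 1 / ((Fintype.card A : ℝ) + 1) := by
    apply Complex.ofReal_injective
    rw [h1]
    push_cast
    rfl
  have h5 : (1 / Real.sqrt ((Fintype.card A : ℝ) + 1)) ^ 2 = 1 / ((Fintype.card A : ℝ) + 1) := by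
    rw [div_pow, Real.sq_sqrt (by positivity)]
    ring
  rw [← h5] at h4
  exact (pow_left_inj₀ (norm_nonneg _) (by positivity) two_ne_zero).1 h4

end Pool.Agent.N392.Ab
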