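import Mathlib
import Pool.Agent.N392.Ab.Base

/-!
# Vectors with all coordinates but one equal
-/

set_option autoImplicit false

open Finset ComplexConjugate

namespace Pool.Agent.N392.Ab

variable {A : Type*} [AddCommGroup A] [Fintype A] [DecidableEq A]

/-- the vector with entry `s` at `0` and `c` elsewhere -/
def tv (s c : ℂ) (k : A) : ℂ := if k = 0 then s else c

omit [AddCommGroup A] [DecidableEq A] in
theorem sum_const_eq (z : ℂ) : ∑ _k : A, z = Fintype.card A * z := by
  rw [Finset.sum_const, Finset.card_univ, nsmul_eq_mul]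

theorem G_gen (s c : ℂ) {a m : A} (ha : a ≠ 0) (hm : m ≠ 0) (h1 : m ≠ a) (h2 : m ≠ -a) :
    G (tv s c) a m = ((Fintype.card A : ℂ) - 4) * (c * conj c) ^ 2 +
      2 * (c * conj c) * (conj s * c + s * conj c) := by
  have hterm : ∀ k : A, conj (tv s c k) * tv s c (k + a) * tv s c (k + m) *
      conj (tv s c (k + a + m)) = (c * conj c) ^ 2 +
      ((if k = 0 then (c * conj c) * (conj s * c) - (c * conj c) ^ 2 else 0) +
      (if k = -a then (c * conj c) * (s * conj c) - (c * conj c) ^ 2 else 0) +
      (if k = -m then (c * conj c) * (s * conj c) - (c * conj c) ^ 2 else 0) +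
      (if k = -(a + m) then (c * conj c) * (conj s * c) - (c * conj c) ^ 2 else 0)) := by
    intro k
    have ham : a + m ≠ 0 := by
      intro h
      exact h2 (eq_neg_of_add_eq_zero_right h)
    unfold tv
    by_cases k0 : k = 0
    · subst k0
      have b1 : (0 : A) ≠ -a := fun h => ha (neg_eq_zero.1 h.symm)
      have b2 : (0 : A) ≠ -m := fun h => hm (neg_eq_zero.1 h.symm)
      have b3 : (0 : A) ≠ -(a + m) := fun h => ham (neg_eq_zero.1 h.symm)
      simp only [zero_add, if_true, if_neg b1, if_neg b2, if_neg b3, if_neg ha, if_neg hm,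
        if_neg ham]
      ring
    by_cases k1 : k = -a
    · subst k1
      have b2 : -a ≠ -m := fun h => h1 (neg_injective h).symm
      have b3 : -a ≠ -(a + m) := by
        intro h
        apply hm
        have := neg_injective h
        exact (left_eq_add.1 this)
      have b4 : -a + m ≠ 0 := by
        intro h
        apply h1
        rw [neg_add_eq_zero] at h
        exact h.symm
      simp only [neg_add_cancel, zero_add, if_true, if_neg k0, if_neg b2, if_neg b3, if_neg b4,
        if_neg hm]
      ring
    by_cases k2 : k = -m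
    · subst k2
      have b3 : -m ≠ -(a + m) := by
        intro h
        apply ha
        have := neg_injective h
        exact (right_eq_add.1 this)
      have b4 : -m + a ≠ 0 := by
        intro h
        apply h1
        rw [neg_add_eq_zero] at h
        exact h
      have e1 : -m + a + m = a := by abel
      simp only [e1, neg_add_cancel, if_true, if_neg k0, if_neg k1, if_neg b3, if_neg b4,
        if_neg ha]
      ring
    by_cases k3 : k = -(a + m)
    · subst k3
      have e1 : -(a + m) + a = -m := by abel
      have e2 : -(a + m) + m = -a := by abel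
      have e3 : -m + m = (0 : A) := neg_add_cancel m
      simp only [e1, e2, e3, if_true, if_neg k0, if_neg k1, if_neg k2,
        if_neg (neg_ne_zero.2 ha), if_neg (neg_ne_zero.2 hm)]
      ring
    · have b1 : k + a ≠ 0 := fun h => k1 (eq_neg_of_add_eq_zero_left h)
      have b2 : k + m ≠ 0 := fun h => k2 (eq_neg_of_add_eq_zero_left h)
      have b3 : k + a + m ≠ 0 := by
        rw [add_assoc]
        exact fun h => k3 (eq_neg_of_add_eq_zero_left h)
      rw [if_neg k0, if_neg k0, if_neg k1, if_neg k2, if_neg k3, if_neg b1, if_neg b2, if_neg b3]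
      ring
  unfold G
  rw [Finset.sum_congr rfl fun k _ => hterm k]
  simp only [Finset.sum_add_distrib, Finset.sum_ite_eq', Finset.mem_univ, if_true, sum_const_eq]
  ring

theorem G_same (s c : ℂ) {a : A} (ha : a ≠ 0) (h2 : a + a ≠ 0) :
    G (tv s c) a a = ((Fintype.card A : ℂ) - 3) * (c * conj c) ^ 2 +
      2 * (c * conj c) * (conj s * c) + (s * conj c) ^ 2 := by
  have hterm : ∀ k : A, conj (tv s c k) * tv s c (k + a) * tv s c (k + a) *
      conj (tv s c (k + a + a)) = (c * conj c) ^ 2 +
      ((if k = 0 then (c * conj c) * (conj s * c) - (c * conj c) ^ 2 else 0) +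
      (if k = -a then (s * conj c) ^ 2 - (c * conj c) ^ 2 else 0) +
      (if k = -(a + a) then (c * conj c) * (conj s * c) - (c * conj c) ^ 2 else 0)) := by
    intro k
    unfold tv
    by_cases k0 : k = 0
    · subst k0
      have b1 : (0 : A) ≠ -a := fun h => ha (neg_eq_zero.1 h.symm)
      have b3 : (0 : A) ≠ -(a + a) := fun h => h2 (neg_eq_zero.1 h.symm)
      simp only [zero_add, if_true, if_neg b1, if_neg b3, if_neg ha, if_neg h2]
      ring
    by_cases k1 : k = -a
    · subst k1
      have b3 : -a ≠ -(a + a) := by
        intro h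
        apply ha
        have := neg_injective h
        exact (left_eq_add.1 this)
      simp only [neg_add_cancel, zero_add, if_true, if_neg k0, if_neg b3, if_neg ha]
      ring
    by_cases k3 : k = -(a + a)
    · subst k3
      have e1 : -(a + a) + a = -a := by abel
      have e3 : -a + a = (0 : A) := neg_add_cancel a
      simp only [e1, e3, if_true, if_neg k0, if_neg k1, if_neg (neg_ne_zero.2 ha)]
      ring
    · have b1 : k + a ≠ 0 := fun h => k1 (eq_neg_of_add_eq_zero_left h)
      have b3 : k + a + a ≠ 0 := by
        rw [add_assoc]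
        exact fun h => k3 (eq_neg_of_add_eq_zero_left h)
      rw [if_neg k0, if_neg k0, if_neg k1, if_neg k3, if_neg b1, if_neg b3]
      ring
  unfold G
  rw [Finset.sum_congr rfl fun k _ => hterm k]
  simp only [Finset.sum_add_distrib, Finset.sum_ite_eq', Finset.mem_univ, if_true, sum_const_eq]
  ring

theorem G_opp (s c : ℂ) {a : A} (ha : a ≠ 0) (h2 : a + a ≠ 0) :
    G (tv s c) a (-a) = ((Fintype.card A : ℂ) - 3) * (c * conj c) ^ 2 +
      2 * (c * conj c) * (s * conj c) + (conj s * c) ^ 2 := by
  have hna : a ≠ -a := by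
    intro h
    apply h2
    nth_rw 1 [h]
    exact neg_add_cancel a
  have hterm : ∀ k : A, conj (tv s c k) * tv s c (k + a) * tv s c (k + -a) *
      conj (tv s c (k + a + -a)) = (c * conj c) ^ 2 +
      ((if k = 0 then (conj s * c) ^ 2 - (c * conj c) ^ 2 else 0) +
      (if k = -a then (c * conj c) * (s * conj c) - (c * conj c) ^ 2 else 0) +
      (if k = a then (c * conj c) * (s * conj c) - (c * conj c) ^ 2 else 0)) := by
    intro k
    have e0 : k + a + -a = k := by abel
    rw [e0]
    unfold tv
    by_cases k0 : k = 0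
    · subst k0
      have b1 : (0 : A) ≠ -a := fun h => ha (neg_eq_zero.1 h.symm)
      simp only [zero_add, if_true, if_neg b1, if_neg (Ne.symm ha), if_neg ha,
        if_neg (neg_ne_zero.2 ha)]
      ring
    by_cases k1 : k = -a
    · subst k1
      have b3 : -a + -a ≠ 0 := by
        rw [← neg_add]
        exact neg_ne_zero.2 h2
      simp only [neg_add_cancel, if_true, if_neg k0, if_neg (Ne.symm hna), if_neg b3]
      ring
    by_cases k3 : k = a
    · subst k3
      simp only [add_neg_cancel, if_true, if_neg k0, if_neg k1, if_neg h2]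
      ring
    · have b1 : k + a ≠ 0 := fun h => k1 (eq_neg_of_add_eq_zero_left h)
      have b3 : k + -a ≠ 0 := fun h => k3 (by rw [eq_neg_of_add_eq_zero_left h, neg_neg])
      rw [if_neg k0, if_neg k0, if_neg k1, if_neg k3, if_neg b1, if_neg b3]
      ring
  unfold G
  rw [Finset.sum_congr rfl fun k _ => hterm k]
  simp only [Finset.sum_add_distrib, Finset.sum_ite_eq', Finset.mem_univ, if_true, sum_const_eq]
  ring

theorem G_two (s c : ℂ) {a : A} (ha : a ≠ 0) (h2 : a + a = 0) :
    G (tv s c) a a = ((Fintype.card A : ℂ) - 2) * (c * conj c) ^ 2 +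
      (conj s * c) ^ 2 + (s * conj c) ^ 2 := by
  have hterm : ∀ k : A, conj (tv s c k) * tv s c (k + a) * tv s c (k + a) *
      conj (tv s c (k + a + a)) = (c * conj c) ^ 2 +
      ((if k = 0 then (conj s * c) ^ 2 - (c * conj c) ^ 2 else 0) +
      (if k = a then (s * conj c) ^ 2 - (c * conj c) ^ 2 else 0)) := by
    intro k
    have e0 : k + a + a = k := by rw [add_assoc, h2, add_zero]
    rw [e0]
    unfold tv
    by_cases k0 : k = 0
    · subst k0
      simp only [zero_add, if_true, if_neg (Ne.symm ha), if_neg ha]
      ring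
    by_cases k1 : k = a
    · subst k1
      simp only [h2, if_true, if_neg ha]
      ring
    · have b1 : k + a ≠ 0 := by
        intro h
        apply k1
        rw [← h2] at h
        exact add_right_cancel h
      rw [if_neg k0, if_neg k0, if_neg k1, if_neg b1]
      ring
  unfold G
  rw [Finset.sum_congr rfl fun k _ => hterm k]
  simp only [Finset.sum_add_distrib, Finset.sum_ite_eq', Finset.mem_univ, if_true, sum_const_eq]
  ring

theorem G_zero (s c : ℂ) {m : A} (hm : m ≠ 0) :
    G (tv s c) 0 m = ((Fintype.card A : ℂ) - 2) * (c * conj c) ^ 2 +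
      2 * (c * conj c) * (s * conj s) := by
  have hterm : ∀ k : A, conj (tv s c k) * tv s c (k + 0) * tv s c (k + m) *
      conj (tv s c (k + 0 + m)) = (c * conj c) ^ 2 +
      ((if k = 0 then (c * conj c) * (s * conj s) - (c * conj c) ^ 2 else 0) +
      (if k = -m then (c * conj c) * (s * conj s) - (c * conj c) ^ 2 else 0)) := by
    intro k
    rw [add_zero]
    unfold tv
    by_cases k0 : k = 0
    · subst k0
      have b1 : (0 : A) ≠ -m := fun h => hm (neg_eq_zero.1 h.symm)
      simp only [zero_add, if_true, if_neg b1, if_neg hm]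
      ring
    by_cases k1 : k = -m
    · subst k1
      simp only [neg_add_cancel, if_true, if_neg k0]
      ring
    · have b1 : k + m ≠ 0 := fun h => k1 (eq_neg_of_add_eq_zero_left h)
      rw [if_neg k0, if_neg k0, if_neg k1, if_neg b1]
      ring
  unfold G
  rw [Finset.sum_congr rfl fun k _ => hterm k]
  simp only [Finset.sum_add_distrib, Finset.sum_ite_eq', Finset.mem_univ, if_true, sum_const_eq]
  ring

theorem G_zero_zero (s c : ℂ) :
    G (tv s c) (0 : A) 0 = ((Fintype.card A : ℂ) - 1) * (c * conj c) ^ 2 + (s * conj s) ^ 2 := by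
  have hterm : ∀ k : A, conj (tv s c k) * tv s c (k + 0) * tv s c (k + 0) *
      conj (tv s c (k + 0 + 0)) = (c * conj c) ^ 2 +
      (if k = 0 then (s * conj s) ^ 2 - (c * conj c) ^ 2 else 0) := by
    intro k
    rw [add_zero, add_zero]
    unfold tv
    by_cases k0 : k = 0
    · rw [if_pos k0, if_pos k0]
      ring
    · rw [if_neg k0, if_neg k0]
      ring
  unfold G
  rw [Finset.sum_congr rfl fun k _ => hterm k]
  simp only [Finset.sum_add_distrib, Finset.sum_ite_eq', Finset.mem_univ, if_true, sum_const_eq]
  ring

theorem sum_tv (s c : ℂ) :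
    ∑ k : A, conj (tv s c k) * tv s c k = ((Fintype.card A : ℂ) - 1) * (c * conj c) +
      s * conj s := by
  have hterm : ∀ k : A, conj (tv s c k) * tv s c k = (c * conj c) +
      (if k = 0 then (s * conj s) - (c * conj c) else 0) := by
    intro k
    unfold tv
    by_cases k0 : k = 0
    · rw [if_pos k0, if_pos k0]
      ring
    · rw [if_neg k0, if_neg k0]
      ring
  rw [Finset.sum_congr rfl fun k _ => hterm k]
  simp only [Finset.sum_add_distrib, Finset.sum_ite_eq', Finset.mem_univ, if_true, sum_const_eq]
  ring

end Pool.Agent.N392.Ab
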