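import Mathlib
import Pool.Agent.N392.Ab.Two

/-!
# Fiducial vectors with all coordinates but one equal
-/

set_option autoImplicit false

open Finset ComplexConjugate

namespace Pool.Agent.N392.Ab

variable {A : Type*} [AddCommGroup A] [Fintype A] [DecidableEq A]

/-- necessary conditions -/
theorem nec (h4 : 4 ≤ Fintype.card A) {s c : ℂ} {x : EuclideanSpace ℂ A}
    (hx : ∀ k, x k = tv s c k) (h : IsFiducial x) :
    Fintype.card A = 8 ∧ ∀ a : A, a + a = 0 := by
  have hx' : x.ofLp = tv s c := funext hx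
  have hG : ∀ a m : A, G (tv s c) a m = ((if a = 0 then 1 else 0) + (if m = 0 then 1 else 0)) /
      ((Fintype.card A : ℂ) + 1) := by
    intro a m
    rw [← hx']
    exact h.G_eq a m
  obtain ⟨d, hd⟩ : ∃ d : ℝ, d = (Fintype.card A : ℝ) := ⟨_, rfl⟩
  have hdc : (Fintype.card A : ℂ) = (d : ℂ) := by rw [hd]; push_cast; rfl
  have hd4 : 4 ≤ d := by rw [hd]; exact_mod_cast h4
  set n := Complex.normSq c with hn
  set X := Complex.normSq s with hX
  set w := s * conj c with hw
  have hcc : c * conj c = (n : ℂ) := Complex.mul_conj c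
  have hss : s * conj s = (X : ℂ) := Complex.mul_conj s
  have hwc : conj s * c = conj w := by
    rw [hw, map_mul (starRingEnd ℂ), Complex.conj_conj]
  have hwn : w.re ^ 2 + w.im ^ 2 = n * X := by
    have : Complex.normSq w = n * X := by
      rw [hw, Complex.normSq_mul, Complex.normSq_conj, mul_comm]
    rw [← this, Complex.normSq_apply]
    ring
  have hn0 : 0 ≤ n := Complex.normSq_nonneg c
  have hX0 : 0 ≤ X := Complex.normSq_nonneg s
  -- norm
  have e4 : (d - 1) * n + X = 1 := by
    have h1 : ov x.ofLp 0 0 = 1 := by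
      rw [← norm_sq_eq]
      have h1 := h.1 0
      rw [norm_shift] at h1
      rw [h1]
      norm_num
    have h2 : ∑ k : A, conj (tv s c k) * tv s c k = 1 := by
      rw [← h1, hx']
      unfold ov
      refine Finset.sum_congr rfl fun k _ => ?_
      simp
    rw [sum_tv, hcc, hss, hdc] at h2
    apply Complex.ofReal_injective
    push_cast
    exact h2
  obtain ⟨a0, ha0⟩ : ∃ a : A, a ≠ 0 := by
    by_contra hcon
    push Not at hcon
    have : Fintype.card A ≤ 1 := Fintype.card_le_one_iff.2 fun a b => by rw [hcon a, hcon b]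
    omega
  -- G (0, m)
  have e3 : ((d - 2) * n ^ 2 + 2 * n * X) * (d + 1) = 1 := by
    have h2 := hG 0 a0
    rw [G_zero s c ha0, if_pos rfl, if_neg ha0, hcc, hss, hdc] at h2
    have h3 : (d : ℂ) + 1 ≠ 0 := by
      have : (d + 1 : ℝ) ≠ 0 := by positivity
      exact_mod_cast this
    rw [eq_div_iff h3] at h2
    apply Complex.ofReal_injective
    push_cast
    rw [h2]
    ring
  have hn1 : 0 < n := by
    rcases hn0.lt_or_eq with h1 | h1
    · exact h1
    · rw [← h1] at e3
      norm_num at e3
  -- generic pair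
  have hgen : ∀ a : A, a ≠ 0 → w.re = -(d - 4) * n / 4 := by
    intro a ha
    obtain ⟨m, hm⟩ : ∃ m : A, m ∉ ({0, a, -a} : Finset A) := by
      by_contra hcon
      push Not at hcon
      have h1 : (Finset.univ : Finset A) ⊆ {0, a, -a} := fun m _ => hcon m
      have h2 := Finset.card_le_card h1
      have h3 : ({0, a, -a} : Finset A).card ≤ 3 := Finset.card_le_three
      rw [Finset.card_univ] at h2
      omega
    simp only [Finset.mem_insert, Finset.mem_singleton, not_or] at hm
    obtain ⟨m0, m1, m2⟩ := hm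
    have h2 := hG a m
    rw [G_gen s c ha m0 m1 m2, if_neg ha, if_neg m0, hcc, hwc, hdc] at h2
    have h3 := congrArg Complex.re h2
    have h4' : (((d : ℂ) - 4) * (n : ℂ) ^ 2 + 2 * (n : ℂ) * (conj w + w)) =
        (((d - 4) * n ^ 2 + 4 * n * w.re : ℝ) : ℂ) := by
      have hww : conj w + w = ((2 * w.re : ℝ) : ℂ) := by
        apply Complex.ext
        · simp; ring
        · simp
      rw [hww]
      push_cast
      ring
    rw [h4', Complex.ofReal_re] at h3
    simp only [add_zero, zero_div, Complex.zero_re] at h3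
    have h5 : n * ((d - 4) * n + 4 * w.re) = 0 := by linear_combination h3
    have h6 := (mul_eq_zero.1 h5).resolve_left hn1.ne'
    linarith
  have hre := hgen a0 ha0
  -- exponent two
  have hexp : ∀ a : A, a + a = 0 := by
    intro a
    by_contra h2
    have ha : a ≠ 0 := by
      rintro rfl
      exact h2 (add_zero 0)
    have h3 := hG a a
    rw [G_same s c ha h2, if_neg ha, hcc, hwc, hdc] at h3
    have hkey : (((d : ℂ) - 3) * (n : ℂ) ^ 2 + 2 * (n : ℂ) * conj w + w ^ 2) =
        (((d - 3) * n ^ 2 + 2 * n * w.re + (w.re ^ 2 - w.im ^ 2) : ℝ) : ℂ) +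
        ((2 * w.im * (w.re - n) : ℝ) : ℂ) * Complex.I := by
      have hwc' : conj w = (w.re : ℂ) - (w.im : ℂ) * Complex.I := by
        apply Complex.ext <;> simp
      have hw0 : w = (w.re : ℂ) + (w.im : ℂ) * Complex.I := (Complex.re_add_im w).symm
      rw [hwc']
      generalize hcr : w.re = cr at *
      generalize hci : w.im = ci at *
      rw [hw0]
      push_cast
      linear_combination ((ci : ℂ) ^ 2) * Complex.I_sq
    rw [hkey] at h3
    simp only [add_zero, zero_div] at h3
    have h5 := congrArg Complex.re h3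
    have h6 := congrArg Complex.im h3
    simp only [Complex.add_re, Complex.ofReal_re, Complex.mul_re, Complex.I_re,
      Complex.ofReal_im, Complex.I_im, Complex.zero_re, Complex.add_im, Complex.mul_im,
      Complex.zero_im, mul_zero, mul_one, sub_zero, add_zero, zero_add] at h5 h6
    have h7 : w.im = 0 := by
      rcases mul_eq_zero.1 h6 with h8 | h8
      · linarith
      · rw [hre] at h8
        exfalso
        nlinarith
    rw [h7, hre] at h5
    nlinarith [mul_nonneg (by linarith : (0 : ℝ) ≤ d - 4) (sq_nonneg n), sq_nonneg ((d - 4) * n),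
      mul_pos hn1 hn1]
  refine ⟨?_, hexp⟩
  have h3 := hG a0 a0
  rw [G_two s c ha0 (hexp a0), if_neg ha0, hcc, hwc, hdc] at h3
  have e2 : (d - 2) * n ^ 2 + 2 * (w.re ^ 2 - w.im ^ 2) = 0 := by
    have hkey : (((d : ℂ) - 2) * (n : ℂ) ^ 2 + conj w ^ 2 + w ^ 2) =
        (((d - 2) * n ^ 2 + 2 * (w.re ^ 2 - w.im ^ 2) : ℝ) : ℂ) := by
      have hwc' : conj w = (w.re : ℂ) - (w.im : ℂ) * Complex.I := by
        apply Complex.ext <;> simp
      have hw0 : w = (w.re : ℂ) + (w.im : ℂ) * Complex.I := (Complex.re_add_im w).symm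
      rw [hwc']
      generalize hcr : w.re = cr at *
      generalize hci : w.im = ci at *
      rw [hw0]
      push_cast
      linear_combination (2 * (ci : ℂ) ^ 2) * Complex.I_sq
    rw [hkey] at h3
    simp only [add_zero, zero_div] at h3
    exact_mod_cast h3
  -- conclusion
  have f1 : w.im ^ 2 = w.re ^ 2 + (d - 2) * n ^ 2 / 2 := by linarith
  have f2 : n * X = n * (n * (d ^ 2 - 4 * d + 8) / 8) := by
    rw [← hwn, f1, hre]
    ring
  have f3 : X = n * (d ^ 2 - 4 * d + 8) / 8 := mul_left_cancel₀ hn1.ne' f2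
  have f4 : n * (d * (d + 4)) = 8 := by
    rw [f3] at e4
    linarith
  have f5 : n ^ 2 * d ^ 2 * (d + 1) = 4 := by
    rw [f3] at e3
    linarith
  have f6 : (d + 4) ^ 2 = 16 * (d + 1) := by
    have h1 : 4 * (d + 4) ^ 2 = 4 * (16 * (d + 1)) := by
      calc 4 * (d + 4) ^ 2 = (n ^ 2 * d ^ 2 * (d + 1)) * (d + 4) ^ 2 := by rw [f5]
        _ = (n * (d * (d + 4))) ^ 2 * (d + 1) := by ring
        _ = 4 * (16 * (d + 1)) := by rw [f4]; ring
    linarith
  have f7 : d * (d - 8) = 0 := by linear_combination f6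
  have f8 : d = 8 := by
    have := (mul_eq_zero.1 f7).resolve_left (by linarith)
    linarith
  rw [hd] at f8
  exact_mod_cast f8

end Pool.Agent.N392.Ab
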