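import Mathlib
import Pool.Agent.N392.Ab.Two

/-!
# Fiducial vectors with all coordinates but one equal: existence
-/

set_option autoImplicit false

open Finset ComplexConjugate

namespace Pool.Agent.N392.Ab

variable {A : Type*} [AddCommGroup A] [Fintype A] [DecidableEq A]

omit [DecidableEq A] in
theorem G_swap (x : A → ℂ) (a m : A) : G x a m = G x m a := by
  unfold G
  refine Finset.sum_congr rfl fun k _ => ?_
  have e : k + a + m = k + m + a := by abel
  rw [e]
  ring

theorem suf {s c : ℂ}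
    (hn : ((Fintype.card A : ℂ) - 1) * (c * conj c) + s * conj s = 1)
    (h00 : ((Fintype.card A : ℂ) - 1) * (c * conj c) ^ 2 + (s * conj s) ^ 2 =
      2 / ((Fintype.card A : ℂ) + 1))
    (h01 : (∃ m : A, m ≠ 0) → ((Fintype.card A : ℂ) - 2) * (c * conj c) ^ 2 +
      2 * (c * conj c) * (s * conj s) = 1 / ((Fintype.card A : ℂ) + 1))
    (hg : 4 ≤ Fintype.card A → ((Fintype.card A : ℂ) - 4) * (c * conj c) ^ 2 +
      2 * (c * conj c) * (conj s * c + s * conj c) = 0)
    (hs : (∃ a : A, a + a ≠ 0) → ((Fintype.card A : ℂ) - 3) * (c * conj c) ^ 2 +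
      2 * (c * conj c) * (conj s * c) + (s * conj c) ^ 2 = 0 ∧
      ((Fintype.card A : ℂ) - 3) * (c * conj c) ^ 2 +
      2 * (c * conj c) * (s * conj c) + (conj s * c) ^ 2 = 0)
    (ht : (∃ a : A, a ≠ 0 ∧ a + a = 0) → ((Fintype.card A : ℂ) - 2) * (c * conj c) ^ 2 +
      (conj s * c) ^ 2 + (s * conj c) ^ 2 = 0) :
    IsFiducial (WithLp.toLp 2 (tv s c) : EuclideanSpace ℂ A) := by
  apply isFiducial_of_G
  · have h2 : ((‖(WithLp.toLp 2 (tv s c) : EuclideanSpace ℂ A)‖ ^ 2 : ℝ) : ℂ) = 1 := by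
      rw [norm_sq_eq, ← hn, ← sum_tv]
      unfold ov
      refine Finset.sum_congr rfl fun k _ => ?_
      simp
    have h3 : ‖(WithLp.toLp 2 (tv s c) : EuclideanSpace ℂ A)‖ ^ 2 = 1 ^ 2 := by
      rw [one_pow]
      exact_mod_cast h2
    exact (pow_left_inj₀ (norm_nonneg _) zero_le_one two_ne_zero).1 h3
  · intro a m
    change G (tv s c) a m = _
    by_cases ha : a = 0
    · rw [ha, if_pos rfl]
      by_cases hm : m = 0
      · rw [hm, if_pos rfl, G_zero_zero, h00]
        norm_num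
      · rw [if_neg hm, G_zero s c hm, h01 ⟨m, hm⟩, add_zero]
    · rw [if_neg ha]
      by_cases hm : m = 0
      · rw [hm, if_pos rfl, G_swap, G_zero s c ha, h01 ⟨a, ha⟩, zero_add]
      · rw [if_neg hm, add_zero, zero_div]
        by_cases h1 : m = a
        · rw [h1]
          by_cases h2 : a + a = 0
          · rw [G_two s c ha h2]
            exact ht ⟨a, ha, h2⟩
          · rw [G_same s c ha h2]
            exact (hs ⟨a, h2⟩).1
        · by_cases h2 : m = -a
          · rw [h2]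
            have h3 : a + a ≠ 0 := by
              intro h3
              apply h1
              rw [h2]
              exact (eq_neg_of_add_eq_zero_left h3).symm
            rw [G_opp s c ha h3]
            exact (hs ⟨a, h3⟩).2
          · rw [G_gen s c ha hm h1 h2]
            apply hg
            have h3 : ({0, a, m, a + m} : Finset A).card = 4 := by
              have b1 : a + m ≠ 0 := fun h => h2 (eq_neg_of_add_eq_zero_right h)
              have b2 : a ≠ a + m := fun h => hm (left_eq_add.1 h)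
              have b3 : m ≠ a + m := fun h => ha (right_eq_add.1 h)
              rw [Finset.card_insert_of_notMem, Finset.card_insert_of_notMem,
                Finset.card_insert_of_notMem, Finset.card_singleton]
              · simpa using b3
              · simp only [Finset.mem_insert, Finset.mem_singleton, not_or]
                exact ⟨Ne.symm h1, b2⟩
              · simp only [Finset.mem_insert, Finset.mem_singleton, not_or]
                exact ⟨Ne.symm ha, Ne.symm hm, Ne.symm b1⟩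
            rw [← h3]
            exact Finset.card_le_univ _

theorem exists_one (h1 : Fintype.card A = 1) :
    ∃ (x : EuclideanSpace ℂ A) (c : ℂ), (∀ k, k ≠ 0 → x k = c) ∧ IsFiducial x := by
  have hall : ∀ a : A, a = 0 := fun a =>
    (Fintype.card_le_one_iff.1 h1.le) a 0
  refine ⟨WithLp.toLp 2 (tv 1 0), 0, fun k hk => absurd (hall k) hk, suf ?_ ?_ ?_ ?_ ?_ ?_⟩
  · rw [h1]; simp
  · rw [h1]; norm_num
  · rintro ⟨m, hm⟩; exact absurd (hall m) hm
  · intro h; omega
  · rintro ⟨m, hm⟩; exact absurd (hall _) hm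
  · rintro ⟨m, hm, -⟩; exact absurd (hall m) hm

theorem exists_three (h3 : Fintype.card A = 3) :
    ∃ (x : EuclideanSpace ℂ A) (c : ℂ), (∀ k, k ≠ 0 → x k = c) ∧ IsFiducial x := by
  set t := Real.sqrt (1 / 2) with ht
  have ht2 : t ^ 2 = 1 / 2 := Real.sq_sqrt (by norm_num)
  have htc : (t : ℂ) ^ 2 = 1 / 2 := by
    have := congrArg (fun r : ℝ => (r : ℂ)) ht2
    push_cast at this
    exact this
  refine ⟨WithLp.toLp 2 (tv 0 t), t, fun k hk => by simp [tv, hk], suf ?_ ?_ ?_ ?_ ?_ ?_⟩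
  · rw [h3, Complex.conj_ofReal]; push_cast; linear_combination 2 * htc
  · rw [h3, Complex.conj_ofReal]; push_cast
    linear_combination (2 * (t : ℂ) ^ 2 + 1) * htc
  · intro _
    rw [h3, Complex.conj_ofReal]; push_cast
    linear_combination ((t : ℂ) ^ 2 + 1 / 2) * htc
  · intro h; omega
  · intro _
    rw [h3, Complex.conj_ofReal]
    constructor <;> simp
  · rintro ⟨a, ha, h2⟩
    exfalso
    have := addOrderOf_dvd_card (x := a)
    rw [h3] at this
    have h4 : addOrderOf a ∣ 2 := by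
      rw [addOrderOf_dvd_iff_nsmul_eq_zero, two_nsmul, h2]
    have h5 : addOrderOf a ∣ 1 := by
      have := Nat.dvd_sub this h4
      simpa using this
    rw [Nat.dvd_one, AddMonoid.addOrderOf_eq_one_iff] at h5
    exact ha h5

theorem exists_two (h2 : Fintype.card A = 2) :
    ∃ (x : EuclideanSpace ℂ A) (c : ℂ), (∀ k, k ≠ 0 → x k = c) ∧ IsFiducial x := by
  set t := Real.sqrt 3 with ht
  have ht2 : t ^ 2 = 3 := Real.sq_sqrt (by norm_num)
  have ht0 : 0 ≤ t := Real.sqrt_nonneg 3
  have ht1 : t ≤ 3 := by nlinarith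
  set a := Real.sqrt ((3 + t) / 6) with ha
  set b := Real.sqrt ((3 - t) / 12) with hb
  have ha2 : a ^ 2 = (3 + t) / 6 := Real.sq_sqrt (by positivity)
  have hb2 : b ^ 2 = (3 - t) / 12 := Real.sq_sqrt (by
    apply div_nonneg <;> linarith)
  have ha2' : (a : ℂ) ^ 2 = (3 + (t : ℂ)) / 6 := by exact_mod_cast ha2
  have hb2' : (b : ℂ) ^ 2 = (3 - (t : ℂ)) / 12 := by exact_mod_cast hb2
  have ht2' : (t : ℂ) ^ 2 = 3 := by exact_mod_cast ht2
  set c : ℂ := (b : ℂ) * (1 + Complex.I) with hc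
  have hcj : conj c = (b : ℂ) * (1 - Complex.I) := by
    rw [hc, map_mul (starRingEnd ℂ), Complex.conj_ofReal, map_add, map_one, Complex.conj_I]
    ring
  have hcc : c * conj c = 2 * (b : ℂ) ^ 2 := by
    rw [hcj, hc]
    linear_combination (-(b : ℂ) ^ 2) * Complex.I_sq
  have hall : ∀ k : A, k + k = 0 := by
    intro k
    have := card_nsmul_eq_zero (x := k)
    rwa [h2, two_nsmul] at this
  refine ⟨WithLp.toLp 2 (tv a c), c, fun k hk => by simp [tv, hk], suf ?_ ?_ ?_ ?_ ?_ ?_⟩
  · rw [h2, hcc, Complex.conj_ofReal]; push_cast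
    linear_combination ha2' + 2 * hb2'
  · rw [h2, hcc, Complex.conj_ofReal]; push_cast
    have e : (2 - 1) * (2 * (b : ℂ) ^ 2) ^ 2 + ((a : ℂ) * a) ^ 2 =
      4 * ((b : ℂ) ^ 2) ^ 2 + ((a : ℂ) ^ 2) ^ 2 := by ring
    rw [e, ha2', hb2']
    linear_combination (1 / 18) * ht2'
  · intro _
    rw [h2, hcc, Complex.conj_ofReal]; push_cast
    have e : (2 - 2) * (2 * (b : ℂ) ^ 2) ^ 2 + 2 * (2 * (b : ℂ) ^ 2) * ((a : ℂ) * a) =
      4 * (b : ℂ) ^ 2 * (a : ℂ) ^ 2 := by ring
    rw [e, ha2', hb2']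
    linear_combination (-1 / 18) * ht2'
  · intro h; omega
  · rintro ⟨k, hk⟩
    exact absurd (hall k) hk
  · intro _
    rw [h2, hcj, hc, Complex.conj_ofReal]; push_cast
    linear_combination (2 * (a : ℂ) ^ 2 * (b : ℂ) ^ 2) * Complex.I_sq

theorem exists_eight (h8 : Fintype.card A = 8) (hexp : ∀ a : A, a + a = 0) :
    ∃ (x : EuclideanSpace ℂ A) (c : ℂ), (∀ k, k ≠ 0 → x k = c) ∧ IsFiducial x := by
  set t := Real.sqrt (1 / 12) with ht
  have ht2 : t ^ 2 = 1 / 12 := Real.sq_sqrt (by norm_num)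
  have htc : (t : ℂ) ^ 2 = 1 / 12 := by
    have := congrArg (fun r : ℝ => (r : ℂ)) ht2
    push_cast at this
    exact this
  set s : ℂ := (t : ℂ) * (-1 + 2 * Complex.I) with hs
  have hsj : conj s = (t : ℂ) * (-1 - 2 * Complex.I) := by
    have h2 : conj (2 : ℂ) = 2 := Complex.conj_ofNat 2
    rw [hs, map_mul (starRingEnd ℂ), Complex.conj_ofReal, map_add, map_neg, map_one,
      map_mul (starRingEnd ℂ), Complex.conj_I, h2]
    ring
  have hss : s * conj s = 5 * (t : ℂ) ^ 2 := by
    rw [hsj, hs]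
    linear_combination (-4 * (t : ℂ) ^ 2) * Complex.I_sq
  have h1 : conj s * (t : ℂ) + s * (t : ℂ) = -2 * (t : ℂ) ^ 2 := by
    rw [hsj, hs]
    ring
  have h2 : (conj s * (t : ℂ)) ^ 2 + (s * (t : ℂ)) ^ 2 = -6 * ((t : ℂ) ^ 2) ^ 2 := by
    rw [hsj, hs]
    linear_combination (8 * (t : ℂ) ^ 4) * Complex.I_sq
  refine ⟨WithLp.toLp 2 (tv s t), t, fun k hk => by simp [tv, hk], suf ?_ ?_ ?_ ?_ ?_ ?_⟩
  · rw [h8, hss, Complex.conj_ofReal]; push_cast
    linear_combination 12 * htc
  · rw [h8, hss, Complex.conj_ofReal]; push_cast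
    linear_combination (32 * ((t : ℂ) ^ 2 + 1 / 12)) * htc
  · intro _
    rw [h8, hss, Complex.conj_ofReal]; push_cast
    linear_combination (16 * ((t : ℂ) ^ 2 + 1 / 12)) * htc
  · intro _
    rw [h8, Complex.conj_ofReal, h1]; push_cast
    ring
  · rintro ⟨k, hk⟩
    exact absurd (hexp k) hk
  · intro _
    rw [h8, Complex.conj_ofReal, add_assoc, h2]; push_cast
    ring

end Pool.Agent.N392.Ab
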