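import Mathlib
import Pool.Agent.N392.Ab.One
import Pool.Agent.N392.Ab.OneSuf

/-!
# Classification of the groups with a fiducial vector with all coordinates but one equal
-/

set_option autoImplicit false

open Finset ComplexConjugate

namespace Pool.Agent.N392.Ab

theorem main (A : Type*) [AddCommGroup A] [Fintype A] :
    (∃ (x : EuclideanSpace ℂ A) (c : ℂ), (∀ k, k ≠ 0 → x k = c) ∧ IsFiducial x) ↔
      Fintype.card A ≤ 3 ∨ (Fintype.card A = 8 ∧ ∀ a : A, a + a = 0) := by
  classical
  constructor
  · rintro ⟨x, c, hx, h⟩
    by_cases h4 : 4 ≤ Fintype.card A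
    · right
      refine nec h4 (s := x 0) (c := c) (fun k => ?_) h
      unfold tv
      by_cases hk : k = 0
      · rw [if_pos hk, hk]
      · rw [if_neg hk, hx k hk]
    · left
      omega
  · rintro (h | ⟨h8, hexp⟩)
    · have h0 : 0 < Fintype.card A := Fintype.card_pos
      have h123 : Fintype.card A = 1 ∨ Fintype.card A = 2 ∨ Fintype.card A = 3 := by omega
      rcases h123 with h1 | h2 | h3
      · exact exists_one h1
      · exact exists_two h2
      · exact exists_three h3
    · exact exists_eight h8 hexp

end Pool.Agent.N392.Ab
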