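import Mathlib
import Pool.Agent.N392.Ab.Base

/-!
# Fiducial vectors with rational squared moduli

The elimination lemmas `aff`, `lin`, `euler4` and `two_sq` follow `Pool.Agent.Y942.LY.BR`.
-/

set_option autoImplicit false

open Finset ComplexConjugate

namespace Pool.Agent.N392.Ab

/-- elimination -/
theorem aff : ∀ (n : ℕ) (A : Fin n → Fin n → ℚ) (b : Fin n → ℚ),
    ∃ y : Fin n → ℚ, ∀ i, (∑ j, A i j * y j + b i) ^ 2 = (y i) ^ 2
  | 0, _, _ => ⟨fun _ => 0, fun i => i.elim0⟩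
  | n + 1, A, b => by
    obtain ⟨ε, hε, hA⟩ : ∃ ε : ℚ, ε ^ 2 = 1 ∧ ε - A 0 0 ≠ 0 := by
      by_cases h : A 0 0 = 1
      · exact ⟨-1, by norm_num, by rw [h]; norm_num⟩
      · exact ⟨1, by norm_num, fun h1 => h (by linarith)⟩
    set c := ε - A 0 0 with hc
    obtain ⟨y, hy⟩ := aff n (fun i j => A i.succ j.succ + A i.succ 0 * A 0 j.succ / c)
      (fun i => b i.succ + A i.succ 0 * b 0 / c)
    set y0 : ℚ := (∑ j : Fin n, A 0 j.succ * y j + b 0) / c with hy0
    have h0 : ∑ j : Fin n, A 0 j.succ * y j + b 0 = c * y0 := by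
      rw [hy0]; field_simp
    refine ⟨Fin.cons y0 y, fun i => ?_⟩
    refine Fin.cases ?_ (fun i => ?_) i
    · rw [Fin.sum_univ_succ]
      simp only [Fin.cons_zero, Fin.cons_succ]
      have : A 0 0 * y0 + ∑ j : Fin n, A 0 j.succ * y j + b 0 = ε * y0 := by
        rw [add_assoc, h0, hc]; ring
      rw [this, mul_pow, hε, one_mul]
    · rw [Fin.sum_univ_succ]
      simp only [Fin.cons_zero, Fin.cons_succ]
      rw [← hy i]
      congr 1
      have h1 : ∑ j : Fin n, (A i.succ j.succ + A i.succ 0 * A 0 j.succ / c) * y j =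
          ∑ j : Fin n, A i.succ j.succ * y j + A i.succ 0 * (∑ j : Fin n, A 0 j.succ * y j) / c := by
        rw [Finset.mul_sum, Finset.sum_div, ← Finset.sum_add_distrib]
        refine Finset.sum_congr rfl fun j _ => ?_
        field_simp
      rw [h1, hy0]
      field_simp
      ring

theorem lin (n : ℕ) (Λ : Fin n → ((Fin (n + 1) → ℚ) →ₗ[ℚ] ℚ)) :
    ∃ y : Fin (n + 1) → ℚ, y (Fin.last n) = 1 ∧ ∀ i : Fin n, (Λ i y) ^ 2 = (y i.castSucc) ^ 2 := by
  obtain ⟨y, hy⟩ := aff n (fun i j => Λ i (Pi.single j.castSucc 1))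
    (fun i => Λ i (Pi.single (Fin.last n) 1))
  refine ⟨Fin.snoc y 1, Fin.snoc_last _ _, fun i => ?_⟩
  have h1 : ∀ z : Fin (n + 1) → ℚ, Λ i z = ∑ j, z j * Λ i (Pi.single j 1) := by
    intro z
    rw [LinearMap.pi_apply_eq_sum_univ (Λ i) z]
    refine Finset.sum_congr rfl fun j _ => ?_
    rw [smul_eq_mul]
    congr 2
    funext k
    by_cases hjk : j = k
    · subst hjk; simp
    · simp [hjk, Ne.symm hjk]
  rw [h1, Fin.sum_univ_castSucc]
  simp only [Fin.snoc_castSucc, Fin.snoc_last, one_mul]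
  rw [← hy i]
  congr 2
  exact Finset.sum_congr rfl fun j _ => mul_comm _ _

/-- Euler's matrix -/
def eu (a b c d : ℚ) : Fin 4 → Fin 4 → ℚ :=
  ![![a, -b, -c, -d], ![b, a, -d, c], ![c, d, a, -b], ![d, -c, b, a]]

theorem euler4 (a b c d : ℚ) (w : Fin 4 → ℚ) :
    ∑ s, (∑ r, eu a b c d s r * w r) ^ 2 = (a ^ 2 + b ^ 2 + c ^ 2 + d ^ 2) * ∑ r, (w r) ^ 2 := by
  simp only [Fin.sum_univ_four, eu]
  simp
  ring

/-- a number which is a sum of two rational squares, in the form used here -/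
theorem two_sq {m : ℕ} (hm : m ≠ 0) {z w : ℚ} (h : (m : ℚ) * z ^ 2 = 1 + w ^ 2) :
    ∃ a b : ℕ, m = a ^ 2 + b ^ 2 := by
  obtain ⟨c, hc, x, y, hxy⟩ : ∃ c : ℕ, c ≠ 0 ∧ ∃ x y : ℕ, m * c ^ 2 = x ^ 2 + y ^ 2 := by
    have hz : z ≠ 0 := by
      rintro rfl
      have : 0 ≤ w ^ 2 := sq_nonneg w
      norm_num at h
      linarith
    refine ⟨z.num.natAbs * w.den, ?_, z.den * w.den, z.den * w.num.natAbs, ?_⟩
    · exact mul_ne_zero (by simpa using hz) w.den_ne_zero
    · have h1 : z = z.num / z.den := (Rat.num_div_den z).symm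
      have h2 : w = w.num / w.den := (Rat.num_div_den w).symm
      have hzd : (z.den : ℚ) ≠ 0 := by exact_mod_cast z.den_ne_zero
      have hwd : (w.den : ℚ) ≠ 0 := by exact_mod_cast w.den_ne_zero
      rw [h1, h2] at h
      field_simp at h
      have h3 : ((m * (z.num.natAbs * w.den) ^ 2 : ℕ) : ℤ) =
          (((z.den * w.den) ^ 2 + (z.den * w.num.natAbs) ^ 2 : ℕ) : ℤ) := by
        push_cast
        have h4 : ((|z.num| : ℤ)) ^ 2 = z.num ^ 2 := sq_abs _
        have h5 : ((|w.num| : ℤ)) ^ 2 = w.num ^ 2 := sq_abs _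
        rw [mul_pow, mul_pow, mul_pow, h4, h5]
        have h6 : (m : ℤ) * (z.num ^ 2 * (w.den : ℤ) ^ 2) =
          (z.den : ℤ) ^ 2 * (w.den : ℤ) ^ 2 + (z.den : ℤ) ^ 2 * w.num ^ 2 := by
          have : ((m : ℚ) * ((z.num : ℚ) ^ 2 * (w.den : ℚ) ^ 2)) =
            (z.den : ℚ) ^ 2 * (w.den : ℚ) ^ 2 + (z.den : ℚ) ^ 2 * (w.num : ℚ) ^ 2 := by
            linear_combination h
          exact_mod_cast this
        exact h6
      exact_mod_cast h3
  rw [Nat.eq_sq_add_sq_iff]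
  intro q hq hq3
  have hqp : q.Prime := Nat.prime_of_mem_primeFactors hq
  have : Fact q.Prime := ⟨hqp⟩
  have h1 := (Nat.eq_sq_add_sq_iff (n := m * c ^ 2)).1 ⟨x, y, hxy⟩ (q := q) (by
    rw [Nat.mem_primeFactors] at hq ⊢
    exact ⟨hq.1, hq.2.1.mul_right _, mul_ne_zero hm (pow_ne_zero 2 hc)⟩) hq3
  rw [padicValNat.mul hm (pow_ne_zero 2 hc), padicValNat.pow] at h1
  rw [Nat.even_add] at h1
  exact h1.2 ⟨padicValNat q c, by ring⟩


/-- the quadratic identity -/
theorem quad {d : ℕ} {N : ℚ} (M : Fin d → Fin d → ℚ)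
    (S : ∀ x y, N * ∑ i, M i x * M i y = 1 + if x = y then 1 else 0) (z : Fin d → ℚ) :
    N * ∑ i, (∑ x, M i x * z x) ^ 2 = ∑ x, (z x) ^ 2 + (∑ x, z x) ^ 2 := by
  have h1 : ∀ i, (∑ x, M i x * z x) ^ 2 = ∑ x, ∑ y, (z x * z y) * (M i x * M i y) := by
    intro i
    rw [pow_two, Finset.sum_mul_sum]
    refine Finset.sum_congr rfl fun x _ => Finset.sum_congr rfl fun y _ => ?_
    ring
  simp only [h1]
  rw [Finset.sum_comm, Finset.mul_sum]
  have h2 : ∀ x, N * ∑ i, ∑ y, (z x * z y) * (M i x * M i y) =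
      (z x) ^ 2 + z x * ∑ y, z y := by
    intro x
    rw [Finset.sum_comm, Finset.mul_sum]
    have h3 : ∀ y, N * ∑ i, (z x * z y) * (M i x * M i y) =
        z x * z y + if x = y then (z x) ^ 2 else 0 := by
      intro y
      rw [← Finset.mul_sum]
      have h4 : N * (z x * z y * ∑ i, M i x * M i y) = z x * z y * (N * ∑ i, M i x * M i y) := by
        ring
      rw [h4, S]
      by_cases hxy : x = y
      · subst hxy
        rw [if_pos rfl, if_pos rfl]
        ring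
      · rw [if_neg hxy, if_neg hxy]
        ring
    simp only [h3, Finset.sum_add_distrib, Finset.sum_ite_eq, Finset.mem_univ, if_true]
    rw [← Finset.mul_sum]
    ring
  simp only [h2, Finset.sum_add_distrib]
  rw [← Finset.sum_mul]
  ring

/-- the case `d ≡ 1 mod 4` -/
theorem sum_two_sq {t : ℕ} (M : Fin (t * 4 + 1) → Fin (t * 4 + 1) → ℚ)
    (S : ∀ x y, ((t * 4 + 1 + 1 : ℕ) : ℚ) * ∑ i, M i x * M i y = 1 + if x = y then 1 else 0) :
    ∃ a b : ℕ, t * 4 + 1 + 1 = a ^ 2 + b ^ 2 := by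
  obtain ⟨a, b, c, d, habcd⟩ := Nat.sum_four_squares (t * 4 + 1 + 1)
  let e : Fin (t * 4) ≃ Fin t × Fin 4 := finProdFinEquiv.symm
  let L : Fin (t * 4 + 1) → (Fin (t * 4 + 1) → ℚ) → ℚ := fun i z => ∑ x, M i x * z x
  let Λ : Fin (t * 4) → ((Fin (t * 4 + 1) → ℚ) →ₗ[ℚ] ℚ) := fun i =>
    { toFun := fun z => ∑ r, eu a b c d (e i).2 r * L (e.symm ((e i).1, r)).castSucc z
      map_add' := by
        intro y y'
        rw [← Finset.sum_add_distrib]
        refine Finset.sum_congr rfl fun r _ => ?_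
        simp only [L, Pi.add_apply, mul_add, Finset.sum_add_distrib]
      map_smul' := by
        intro s y
        simp only [RingHom.id_apply, smul_eq_mul]
        rw [Finset.mul_sum]
        refine Finset.sum_congr rfl fun r _ => ?_
        have : ∀ j, L j (s • y) = s * L j y := by
          intro j
          simp only [L, Pi.smul_apply, smul_eq_mul]
          rw [Finset.mul_sum]
          exact Finset.sum_congr rfl fun x _ => by ring
        rw [this]
        ring }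
  obtain ⟨z, hz1, hz2⟩ := lin (t * 4) Λ
  have h1 := quad M S z
  have h2 : ∑ i : Fin (t * 4), (Λ i z) ^ 2 =
      ((t * 4 + 1 + 1 : ℕ) : ℚ) * ∑ i : Fin (t * 4), (L i.castSucc z) ^ 2 := by
    have e1 : ∑ i : Fin (t * 4), (Λ i z) ^ 2 = ∑ p : Fin t × Fin 4,
        (∑ r, eu a b c d p.2 r * L (e.symm (p.1, r)).castSucc z) ^ 2 :=
      Equiv.sum_comp e
        (fun p => (∑ r, eu a b c d p.2 r * L (e.symm (p.1, r)).castSucc z) ^ 2)
    have e2 : ∑ i : Fin (t * 4), (L i.castSucc z) ^ 2 =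
        ∑ p : Fin t × Fin 4, (L (e.symm p).castSucc z) ^ 2 :=
      (Equiv.sum_comp e.symm (fun i => (L i.castSucc z) ^ 2)).symm
    rw [e1, e2, Fintype.sum_prod_type, Fintype.sum_prod_type, Finset.mul_sum]
    refine Finset.sum_congr rfl fun p _ => ?_
    have h3 := euler4 a b c d (fun r => L (e.symm (p, r)).castSucc z)
    have h4 : ((a : ℚ) ^ 2 + b ^ 2 + c ^ 2 + d ^ 2) = ((t * 4 + 1 + 1 : ℕ) : ℚ) := by
      exact_mod_cast habcd
    rw [← h4]
    exact h3
  have h3 : ∑ i : Fin (t * 4), (Λ i z) ^ 2 = ∑ i : Fin (t * 4), (z i.castSucc) ^ 2 :=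
    Finset.sum_congr rfl fun i _ => hz2 i
  have hA : ∑ i, (∑ x, M i x * z x) ^ 2 = ∑ i : Fin (t * 4), (∑ x, M i.castSucc x * z x) ^ 2 +
      (∑ x, M (Fin.last _) x * z x) ^ 2 := Fin.sum_univ_castSucc _
  have hB : ∑ x, (z x) ^ 2 = ∑ i : Fin (t * 4), (z i.castSucc) ^ 2 + (z (Fin.last _)) ^ 2 :=
    Fin.sum_univ_castSucc _
  rw [hA, hB, hz1] at h1
  refine two_sq (m := t * 4 + 1 + 1) (by omega) (z := L (Fin.last _) z)
    (w := ∑ x, z x) ?_
  have h4 : ∀ i, L i z = ∑ x, M i x * z x := fun i => rfl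
  rw [h3] at h2
  simp only [h4] at h2 ⊢
  linear_combination h1 + h2

/-- the case of even `d` -/
theorem square {d : ℕ} (hd : Even d) (M : Fin d → Fin d → ℚ)
    (S : ∀ x y, ((d + 1 : ℕ) : ℚ) * ∑ i, M i x * M i y = 1 + if x = y then 1 else 0) :
    IsSquare (d + 1) := by
  set P : Matrix (Fin d) (Fin d) ℚ := Matrix.of M with hP
  set u : Matrix (Fin d) Unit ℚ := Matrix.of fun _ _ => 1 with hu
  have h1 : ((d + 1 : ℕ) : ℚ) • (P.transpose * P) = 1 + u * u.transpose := by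
    ext x y
    rw [Matrix.smul_apply, Matrix.mul_apply, Matrix.add_apply, Matrix.mul_apply, Matrix.one_apply,
      smul_eq_mul]
    have := S x y
    simp only [hP, hu, Matrix.transpose_apply, Matrix.of_apply, Finset.univ_unique,
      Finset.sum_const, Finset.card_singleton, mul_one, one_smul]
    rw [this]
    ring
  have h2 : (1 + u * u.transpose).det = (d : ℚ) + 1 := by
    rw [Matrix.det_one_add_mul_comm]
    have : 1 + u.transpose * u = Matrix.of fun _ _ => (d : ℚ) + 1 := by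
      ext i j
      rw [Matrix.add_apply, Matrix.mul_apply]
      simp [hu, add_comm]
    rw [this, Matrix.det_unique]
    rfl
  have h3 : ((d + 1 : ℕ) : ℚ) ^ d * (P.det) ^ 2 = (d : ℚ) + 1 := by
    rw [← h2, ← h1, Matrix.det_smul, Matrix.det_mul, Matrix.det_transpose, Fintype.card_fin]
    ring
  obtain ⟨k, hk⟩ := hd
  have h4 : IsSquare (((d + 1 : ℕ) : ℚ)) := by
    refine ⟨((d + 1 : ℕ) : ℚ) ^ k * P.det, ?_⟩
    have : ((d + 1 : ℕ) : ℚ) = (d : ℚ) + 1 := by push_cast; rfl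
    nth_rw 1 [this]
    rw [← h3]
    nth_rw 2 [hk]
    ring
  exact Rat.isSquare_natCast_iff.1 h4

/-- rational squared moduli -/
theorem rational {A : Type*} [AddCommGroup A] [Fintype A] {x : EuclideanSpace ℂ A}
    (h : IsFiducial x) (hr : ∀ k, ∃ r : ℚ, ‖x k‖ ^ 2 = r) :
    (Even (Fintype.card A) → IsSquare (Fintype.card A + 1)) ∧
    (Fintype.card A % 4 = 1 → ∃ a b : ℕ, Fintype.card A + 1 = a ^ 2 + b ^ 2) := by
  classical
  choose q hq using hr
  have hG : ∀ m : A, ((Fintype.card A + 1 : ℕ) : ℚ) * ∑ k, q k * q (k + m) =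
      1 + if m = 0 then 1 else 0 := by
    intro m
    have h1 := h.G_eq 0 m
    unfold G at h1
    have h2 : ∀ k : A, conj (x k) * x (k + 0) * x (k + m) * conj (x (k + 0 + m)) =
        ((q k * q (k + m) : ℚ) : ℂ) := by
      intro k
      have e : ∀ j : A, conj (x j) * x j = ((q j : ℚ) : ℂ) := by
        intro j
        rw [mul_comm, Complex.mul_conj, Complex.normSq_eq_norm_sq, hq j]
        push_cast
        rfl
      rw [add_zero]
      have e1 := e k
      have e2 := e (k + m)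
      push_cast
      rw [← e1, ← e2]
      ring
    rw [Finset.sum_congr rfl fun k _ => h2 k, if_pos rfl, eq_div_iff card1_ne] at h1
    have h3 : ((((Fintype.card A + 1 : ℕ) : ℚ) * ∑ k, q k * q (k + m) : ℚ) : ℂ) =
        ((1 + if m = 0 then 1 else 0 : ℚ) : ℂ) := by
      have h4 : ((1 + if m = 0 then 1 else 0 : ℚ) : ℂ) = 1 + if m = 0 then 1 else 0 := by
        split_ifs <;> norm_num
      rw [h4, ← h1]
      push_cast
      ring
    exact_mod_cast h3
  obtain ⟨d, hd⟩ : ∃ d, Fintype.card A = d := ⟨_, rfl⟩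
  rw [hd] at hG ⊢
  let e0 : A ≃ Fin d := Fintype.equivFinOfCardEq hd
  have hS : ∀ x y : Fin d, ((d + 1 : ℕ) : ℚ) *
      ∑ i, q (e0.symm i + e0.symm x) * q (e0.symm i + e0.symm y) =
      1 + if x = y then 1 else 0 := by
    intro x y
    have h1 : ∑ i, q (e0.symm i + e0.symm x) * q (e0.symm i + e0.symm y) =
        ∑ k, q k * q (k + (e0.symm y - e0.symm x)) := by
      refine Fintype.sum_equiv (e0.symm.trans (Equiv.addRight (e0.symm x))) _ _ fun i => ?_
      rw [Equiv.trans_apply, Equiv.coe_addRight, add_add_sub_cancel]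
    rw [h1, hG]
    by_cases hxy : x = y
    · rw [if_pos hxy, hxy, sub_self, if_pos rfl]
    · rw [if_neg hxy, if_neg]
      intro h2
      exact hxy (e0.symm.injective (sub_eq_zero.1 h2)).symm
  constructor
  · intro he
    exact square he _ hS
  · intro h4
    obtain ⟨t, ht⟩ : ∃ t, d = t * 4 + 1 := ⟨d / 4, by omega⟩
    subst ht
    exact sum_two_sq _ hS

end Pool.Agent.N392.Ab
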